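import Pool.Agent.Lib.MP_1d68e1_al_ts.T18

/-!
# MP_1d68e1_al: sign-coherence for all totally sign-skew-symmetric matrices

For every totally sign-skew-symmetric integer matrix `B` and every seed of the cluster algebra
with principal coefficients at `B`: every c-vector has all entries `≥ 0` or all entries `≤ 0`, and
for every `k` the `k`-th coordinates of the g-vectors of the cluster are all `≥ 0` or all `≤ 0`.
-/

set_option autoImplicit false

namespace Pool.Agent.Results.MP_1d68e1_al.SignCoherence

open Pool.Agent.Lib.MP_1d68e1_al Pool.Agent.Lib.MP_1d68e1_al.TS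

/-- Sign-coherence of the c-vectors (the columns of `C`) and of the g-vectors of every seed. -/
theorem result : ∀ (n : ℕ) (B : Matrix (Fin n) (Fin n) ℤ), TotallySignSkew B →
    ∀ w : List (Fin n),
      (∀ j, (∀ i, 0 ≤ (seedAt B w).C i j) ∨ ∀ i, (seedAt B w).C i j ≤ 0) ∧
      ∃ g : Fin n → Fin n → ℤ, (∀ i, IsGVec B ((seedAt B w).x i) (g i)) ∧
        ∀ k, (∀ i, 0 ≤ g i k) ∨ ∀ i, g i k ≤ 0 := by
  intro n B hB w
  refine ⟨fun j => c_coherent hB w j, ?_⟩
  obtain ⟨b, hb⟩ := basis_laurent hB w
  exact ⟨fun i => b i, hb, fun k => g_coherent hB w (fun i => b i) hb k⟩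

end Pool.Agent.Results.MP_1d68e1_al.SignCoherence
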