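import Pool.Agent.Lib.MP_1d68e1_al_ts.T18

/-!
# MP_1d68e1_al, Q1, full answer: yes

For every totally sign-skew-symmetric integer matrix `B`, the g-vectors of the cluster variables
of every seed of the cluster algebra with principal coefficients at `B` form a basis of `ℤ^n`.
-/

set_option autoImplicit false

namespace Pool.Agent.Results.MP_1d68e1_al.TotallySignSkewBasis

open Pool.Agent.Lib.MP_1d68e1_al Pool.Agent.Lib.MP_1d68e1_al.TS

/-- For every totally sign-skew-symmetric `B` and every finite sequence `w` of mutations, the
cluster variables `x_1, …, x_n` of the seed at `w` are homogeneous elements of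
`ℤ[Y][X^±1]` whose degrees form a basis of `ℤ^n`. -/
theorem result : ∀ (n : ℕ) (B : Matrix (Fin n) (Fin n) ℤ), TotallySignSkew B →
    ∀ w : List (Fin n), ∃ b : Module.Basis (Fin n) ℤ (Fin n → ℤ),
      ∀ i, IsGVec B ((seedAt B w).x i) (b i) :=
  fun _ _ hB w => basis_laurent hB w

end Pool.Agent.Results.MP_1d68e1_al.TotallySignSkewBasis
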